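import Pool.Agent.X220.FP.Cor
import Pool.Agent.X220.FP.Alg

/-!
# Progressions of almost primes with a given first term and prescribed fractional parts of the difference

Let `P_1, …, P_s` be real polynomials of degree at most `k ≥ 1` whose vector of the coefficients of `x ^ k` is of finite
type: the distance of `h_1 α_1 + … + h_s α_s` to the nearest integer is at least `c₀ / |h| ^ τ` for all nonzero integral
vectors `h` (for example `α_1, …, α_s` are algebraic and `1, α_1, …, α_s` are linearly independent over the rational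
numbers). Let `m ≥ 1`, and let `z` be a number all of whose prime factors are greater than `m` (for example a prime
`z = q`, and `m = q - 1`). We consider the terms `z + A, z + 2 A, …, z + m A` of the progression with the first term `z`,
for the differences `A` of an ARBITRARY short interval `(M, M + H]` for which all the fractional parts of `P_i(A) - u_i` are
less than `ρ_i`, where the `ρ_i` may be as small as `H ^ (-δ)`.
* If `M + H ≤ H ^ B` and `z ≤ H ^ B`, where `B` is arbitrary, the number of the `A` for which all the terms have a bounded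
  number of prime factors, all greater than `H ^ δ`, has the expected order of magnitude.
* The number of the `A` for which all of them are primes is at most of this order.
* The number of the `A` for which they have no prime factor up to `y` is given by an asymptotic formula.

All this is uniform in the polynomials, in `M`, in the boxes, and in `z`. The proof combines a sieve which is uniform
in the removed residue classes (in the starting files), Weyl's inequality, and Liouville's inequality for norms.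
-/

set_option autoImplicit false

namespace Pool.Agent.Results.MP_d49082_nt.FractionalParts

open Finset Polynomial

/-- the vector `α` is of finite type, with the constants `c₀` and `τ` -/
def FiniteType {s : ℕ} (c₀ : ℝ) (τ : ℕ) (α : Fin s → ℝ) : Prop :=
  ∀ h : Fin s → ℤ, h ≠ 0 → ∀ a : ℤ, c₀ ≤ (∑ i, |(h i : ℝ)|) ^ τ * |(∑ i, h i * α i) - a|

/-- all the fractional parts of `P_i(n) - u_i` are less than `ρ_i` -/
def InBox {s : ℕ} (P : Fin s → ℝ[X]) (u ρ : Fin s → ℝ) (n : ℕ) : Prop :=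
  ∀ i, Int.fract ((P i).eval (n : ℝ) - u i) < ρ i

/-- `m ≠ 0` has at most `r` prime factors, counted with multiplicity, all of them greater than `x`. -/
def AlmostPrime (r : ℕ) (x : ℝ) (m : ℕ) : Prop :=
  m ≠ 0 ∧ m.primeFactorsList.length ≤ r ∧ ∀ q : ℕ, q.Prime → q ∣ m → x < q

/-- the terms `z + n, z + 2 n, …, z + m n` -/
def form (m z n : ℕ) : Fin m → ℤ := fun i => (z : ℤ) + ((i : ℕ) + 1) * n

/-- the number of the `n` in `(M, M + H]` with the property `R` for which all the values are almost primes -/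
noncomputable def almost (m z : ℕ) (r : ℕ) (x : ℝ) (M H : ℕ) (R : ℕ → Prop) : ℕ :=
  Set.ncard {n : ℕ | M < n ∧ n ≤ M + H ∧ R n ∧ ∀ i, AlmostPrime r x (form m z n i).natAbs}

/-- the number of the `n` in `(M, M + H]` with the property `R` for which all the values are primes -/
noncomputable def primes (m z : ℕ) (M H : ℕ) (R : ℕ → Prop) : ℕ :=
  Set.ncard {n : ℕ | M < n ∧ n ≤ M + H ∧ R n ∧ ∀ i, (form m z n i).natAbs.Prime}

/-- the number of the `n` in `(M, M + H]` with the property `R` for which the values have no prime factor up to `y` -/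
noncomputable def rough (m z : ℕ) (y M H : ℕ) (R : ℕ → Prop) : ℕ :=
  Set.ncard {n : ℕ | M < n ∧ n ≤ M + H ∧ R n ∧ ∀ q : ℕ, q.Prime → q ≤ y → ∀ i, ¬ (q : ℤ) ∣ form m z n i}

/-- the product over the primes `q ≤ y` of `1 - ν(q) / q`, where `ν(q)` is the number of the residues `n` modulo `q` for
which one of the values is divisible by `q` -/
noncomputable def V (m z : ℕ) (y : ℕ) : ℝ :=
  ∏ q ∈ (Icc 1 y).filter Nat.Prime, (1 - (Set.ncard {n : ℕ | n < q ∧ ∃ i, (q : ℤ) ∣ form m z n i} : ℝ) / q)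

/-- the bounds for the interval `(M, M + H]` and the property `R`, with the expected number `X` -/
def Bounds (m z : ℕ) (T r : ℕ) (δ c c' C : ℝ) (B M H : ℕ) (R : ℕ → Prop) (X : ℝ) : Prop :=
  (M + H ≤ T ^ B → z ≤ T ^ B → c * (X * V m z T) ≤ almost m z r ((T : ℝ) ^ δ) M H R ∧
    c' * X / Real.log T ^ m ≤ almost m z r ((T : ℝ) ^ δ) M H R) ∧
  (primes m z M H R : ℝ) ≤ C * (X * V m z T)

/-- the asymptotic formula for the interval `(M, M + H]` and the property `R`, with the expected number `X` -/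
def Rough (m z : ℕ) (η : ℝ) (M H y : ℕ) (R : ℕ → Prop) (X : ℝ) : Prop :=
  |(rough m z y M H R : ℝ) - X * V m z y| ≤ η * (X * V m z y)

/-- the coefficients of the forms -/
def ca (m : ℕ) : Fin m → ℤ := fun i => ((i : ℕ) : ℤ) + 1

/-- the constants of the forms -/
def cb (m z : ℕ) : Fin m → ℤ := fun _ => (z : ℤ)

lemma form_eq (m z : ℕ) (n : ℕ) (i : Fin m) : ca m i * (n : ℤ) + cb m z i = form m z n i := by
  simp only [ca, cb, form]
  ring

lemma V_eq (m z : ℕ) (y : ℕ) : Pool.Agent.X55.Fam.VL (ca m) (cb m z) y = V m z y := by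
  unfold Pool.Agent.X55.Fam.VL V
  simp only [form_eq]

lemma ca_ne (m : ℕ) (i : Fin m) : ca m i ≠ 0 := by
  simp only [ca]
  positivity

lemma adm {m z : ℕ} (hz : ∀ q : ℕ, q.Prime → q ∣ z → m < q) (q : ℕ) (hq : q.Prime) :
    ∃ n : ℕ, ∀ i, ¬ (q : ℤ) ∣ ca m i * (n : ℤ) + cb m z i := by
  by_cases h : q ∣ z
  · refine ⟨1, fun i hi => ?_⟩
    have hm := hz q hq h
    simp only [ca, cb] at hi
    have h1 : (q : ℤ) ∣ (z : ℤ) := by exact_mod_cast h
    have h2 := dvd_sub hi h1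
    have h3 : (q : ℤ) ∣ (((i : ℕ) + 1 : ℕ) : ℤ) := by
      have e : (((i : ℕ) : ℤ) + 1) * ((1 : ℕ) : ℤ) + (z : ℤ) - z = (((i : ℕ) + 1 : ℕ) : ℤ) := by push_cast; ring
      rwa [e] at h2
    have h4 : q ∣ (i : ℕ) + 1 := by exact_mod_cast h3
    have h5 := Nat.le_of_dvd (by omega) h4
    have h6 := i.isLt
    omega
  · refine ⟨0, fun i hi => h ?_⟩
    simp only [ca, cb] at hi
    have h1 : (q : ℤ) ∣ (z : ℤ) := by simpa using hi
    exact_mod_cast h1

lemma conv {m z : ℕ} {T r : ℕ} {δ c C c1 : ℝ} {B M H : ℕ} {R : ℕ → Prop} {X : ℝ} (hT : 3 ≤ T) (hmT : m ≤ T)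
    (hc : 0 < c) (hX : 0 ≤ X) (hlo : c1 / Real.log T ^ m ≤ V m z T)
    (h : Pool.Agent.X55.Fam.BothL (ca m) (cb m z) T r δ c C (B + 2) M H R X) :
    Bounds m z T r δ c (c * c1) C B M H R X := by
  obtain ⟨h1, h2⟩ := h
  unfold Pool.Agent.X55.Fam.LoT at h1
  unfold Pool.Agent.X55.Fam.UpL at h2
  rw [V_eq] at h1 h2
  simp only [form_eq] at h1 h2
  have hT1 : 1 ≤ T := by omega
  have hTB : 1 ≤ T ^ B := Nat.one_le_pow _ _ hT1
  have hT2 : T ≤ T ^ (B + 2) := Nat.le_self_pow (by omega) T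
  have hBB : 9 * T ^ B ≤ T ^ (B + 2) := by
    rw [pow_add, mul_comm]
    exact Nat.mul_le_mul_left _ (by nlinarith)
  refine ⟨fun hMH hs0 => ?_, h2⟩
  have k1 := h1 (by omega) (fun i => by
    have h6 := i.isLt
    have e : (ca m i).natAbs = (i : ℕ) + 1 := by
      simp only [ca]
      omega
    rw [e]
    omega) (fun i => by
    have e : (cb m z i).natAbs = z := by simp [cb]
    rw [e]
    omega)
  refine ⟨k1, le_trans ?_ k1⟩
  calc c * c1 * X / Real.log T ^ m = c * (X * (c1 / Real.log T ^ m)) := by ring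
    _ ≤ _ := by gcongr

theorem result : (∀ (s k τ m : ℕ) (c₀ : ℝ), 1 ≤ k → 0 < c₀ → 1 ≤ m →
    (∀ B : ℕ, ∃ (r : ℕ) (δ c c' C : ℝ) (H₀ : ℕ), 0 < δ ∧ 0 < c ∧ 0 < c' ∧ 0 < C ∧
      ∀ H : ℕ, H₀ ≤ H → ∀ P : Fin s → ℝ[X], (∀ i, (P i).natDegree ≤ k) → FiniteType c₀ τ (fun i => (P i).coeff k) →
      ∀ u ρ : Fin s → ℝ, (∀ i, (H : ℝ) ^ (-δ) ≤ ρ i ∧ ρ i ≤ 1) →
      ∀ z : ℕ, (∀ q : ℕ, q.Prime → q ∣ z → m < q) → ∀ M : ℕ,
      Bounds m z H r δ c c' C B M H (InBox P u ρ) (H * ∏ i, ρ i)) ∧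
    (∀ η : ℝ, 0 < η → ∃ (δ : ℝ) (H₀ : ℕ), 0 < δ ∧
      ∀ H : ℕ, H₀ ≤ H → ∀ P : Fin s → ℝ[X], (∀ i, (P i).natDegree ≤ k) → FiniteType c₀ τ (fun i => (P i).coeff k) →
      ∀ u ρ : Fin s → ℝ, (∀ i, (H : ℝ) ^ (-δ) ≤ ρ i ∧ ρ i ≤ 1) →
      ∀ z : ℕ, (∀ q : ℕ, q.Prime → q ∣ z → m < q) → ∀ M : ℕ,
      ∀ y : ℕ, 3 ≤ y → (y : ℝ) ≤ (H : ℝ) ^ δ → Rough m z η M H y (InBox P u ρ) (H * ∏ i, ρ i))) ∧
    -- algebraic numbers
    (∀ (s : ℕ) (α : Fin s → ℝ), (∀ i, IsAlgebraic ℚ (α i)) →
      (∀ (h : Fin s → ℤ) (a : ℤ), ∑ i, (h i : ℝ) * α i = a → h = 0) →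
      ∃ (c₀ : ℝ) (τ : ℕ), 0 < c₀ ∧ FiniteType c₀ τ α) := by
  classical
  refine ⟨fun s k τ m c₀ hk hc₀ hm => ⟨?_, ?_⟩, fun s α hα hind => Pool.Agent.X220.FP.liouville_vec s α hα hind⟩
  · intro B
    obtain ⟨r, δ, c, C, H₀, hδ, hc, hC, h⟩ := Pool.Agent.X220.FP.fp_lin s k τ hk c₀ hc₀ m hm (B + 2)
    obtain ⟨c1, hc1, hlo⟩ := Pool.Agent.X55.Fam.VQ_low m hm
    refine ⟨r, δ, c, c * c1, C, max H₀ (max 3 m), hδ, hc, by positivity, hC, ?_⟩
    intro H hH P hP hFT u ρ hρ z hcond M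
    have h3 : 3 ≤ H := ((le_max_left _ _).trans (le_max_right _ _)).trans hH
    have h4 : m ≤ H := ((le_max_right _ _).trans (le_max_right _ _)).trans hH
    have hX : 0 ≤ (H : ℝ) * ∏ i, ρ i := mul_nonneg (Nat.cast_nonneg _)
      (prod_nonneg fun i _ => le_trans (by positivity) (hρ i).1)
    have had := adm hcond
    exact conv h3 h4 hc hX (by
      rw [← V_eq, Pool.Agent.X55.Fam.VL_eq]
      exact hlo _ (Pool.Agent.X55.Fam.adm_lin (ca m) (cb m z) had) H h3)
      (h H ((le_max_left _ _).trans hH) (ca m) (cb m z) (ca_ne m) had P hP hFT u ρ hρ M)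
  · intro η hη
    obtain ⟨δ, H₀, hδ, h⟩ := Pool.Agent.X220.FP.fp_linA s k τ hk c₀ hc₀ m hm η hη
    refine ⟨δ, H₀, hδ, ?_⟩
    intro H hH P hP hFT u ρ hρ z hcond M y hy hyH
    have key := h H hH (ca m) (cb m z) (adm hcond) P hP hFT u ρ hρ M y hy hyH
    unfold Pool.Agent.X55.Fam.AsL at key
    rw [V_eq] at key
    simp only [form_eq] at key
    exact key

end Pool.Agent.Results.MP_d49082_nt.FractionalParts
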